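import Pool.Agent.P.MP_53e370_gt.Main

namespace Pool.Agent.Results.MP_53e370_gt.CubeClass

open Pool.Agent.P.MP_ac4909_gt Pool.Agent.P.MP_53e370_gt

/-- Let `L` be a framed link with a sublink `v` that links every component evenly and has total
self-linking `2` modulo `4`.  Then the Kauffman bracket skein module over `ℚ(A)` of the closed
oriented 3-manifold obtained by surgery on `L` has dimension at least two. -/
theorem result {ι : Type} [Fintype ι] [DecidableEq ι] (L : List (Sl (Arc ι)))
    (hL : IsFramedLink L) (v : Finset ι) (h1 : ∀ k, Even (∑ i ∈ v, lk L i k))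
    (h2 : (∑ i ∈ v, ∑ k ∈ v, lk L i k) % 4 = 2) :
    2 ≤ Module.rank (RatFunc ℚ) (SkeinModule L) :=
  two_le_rank hL v h1 h2

end Pool.Agent.Results.MP_53e370_gt.CubeClass
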